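import Pool.Agent.Q271.HD.Main

set_option autoImplicit false

/-!
# MP_3553b5: a `q^(n-d+1)`-colouring of a Hamming-distance graph with a transition edge
-/

namespace Pool.Agent.Results.MP_3553b5_co.TransitionEdge

open Pool.Agent.Q271.HD

/-- **MP_3553b5, negative answer.** For `q = 3`, `n = 13`, `d = 3` there is a proper
`q^(n-d+1)`-colouring of `H_q(n,d)`, using all `q^(n-d+1)` colours, that has a transition edge. -/
theorem result : ∃ (K : (HG 3 13 3).Coloring (Fin (3 ^ (13 - 3 + 1))))
    (x y : Fin 13 → ZMod 3), Function.Surjective K ∧ IsTransitionEdge (HG 3 13 3) K x y :=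
  main

end Pool.Agent.Results.MP_3553b5_co.TransitionEdge
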